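import Pool.Agent.Helper69.UX.StE

/-!
Project UX (MP_e12aa9_pr), module EXP: lemmas for the exact profile.
-/

set_option autoImplicit false

namespace Pool.Agent.Helper2.UX.EXA

open Finset Filter Pool.Agent.Helper82.CN Pool.Agent.Helper11.PV Pool.Agent.Helper69.VX
  Pool.Agent.Helper69.UX

theorem spl {α : Type} [AddCommMonoid α] (T : ℕ) (hT : 1 ≤ T) (F : ℕ → α) :
    ∑ u ∈ range (T + 1), F u = F 0 + (F 1 + ∑ u ∈ Icc 2 T, F u) := by
  have h : range (T + 1) = insert 0 (insert 1 (Icc 2 T)) := by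
    ext u
    simp only [mem_range, mem_insert, mem_Icc]
    omega
  rw [h, sum_insert, sum_insert]
  · simp
  · simp

theorem lfac (k : ℕ) (hk : 1 ≤ k) :
    Real.log (k.factorial : ℝ) ≤ (k + 1) * Real.log k - k + 1 := by
  induction k, hk using Nat.le_induction with
  | base => simp
  | succ k hk ih =>
    have hk0 : (0 : ℝ) < k := by exact_mod_cast hk
    have h1 : Real.log ((k + 1).factorial : ℝ)
        = Real.log ((k : ℝ) + 1) + Real.log (k.factorial : ℝ) := by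
      rw [Nat.factorial_succ, Nat.cast_mul, Real.log_mul (by positivity) (by positivity)]
      push_cast
      rfl
    have h2 : 1 / ((k : ℝ) + 1) ≤ Real.log ((k : ℝ) + 1) - Real.log k := by
      rw [← Real.log_div (by positivity) (by positivity)]
      have h3 := Real.one_sub_inv_le_log_of_pos (x := ((k : ℝ) + 1) / k) (by positivity)
      have h4 : 1 - (((k : ℝ) + 1) / k)⁻¹ = 1 / ((k : ℝ) + 1) := by
        field_simp
        ring
      rwa [h4] at h3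
    have h5 : 1 ≤ ((k : ℝ) + 1) * (Real.log ((k : ℝ) + 1) - Real.log k) := by
      have h6 := mul_le_mul_of_nonneg_left h2 (by positivity : (0 : ℝ) ≤ (k : ℝ) + 1)
      rwa [mul_one_div_cancel (by positivity)] at h6
    rw [h1]
    push_cast
    nlinarith

theorem tge (n : ℕ) (κ : ℝ) (h0 : 0 ≤ κ) (hn : κ ≤ n) :
    κ - 2 - Real.log n ≤ ⌊κ⌋₊ * Real.log κ - Real.log (⌊κ⌋₊.factorial : ℝ) := by
  have hl : 0 ≤ Real.log n := Real.log_natCast_nonneg n
  rcases Nat.eq_zero_or_pos ⌊κ⌋₊ with h | h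
  · have h1 : κ < 1 := Nat.floor_eq_zero.1 h
    rw [h]
    simp only [Nat.cast_zero, zero_mul, Nat.factorial_zero, Nat.cast_one, Real.log_one, sub_zero]
    linarith
  · have h1 := lfac _ h
    have h2 : (⌊κ⌋₊ : ℝ) ≤ κ := Nat.floor_le h0
    have h3 : κ < ⌊κ⌋₊ + 1 := Nat.lt_floor_add_one κ
    have hk : (1 : ℝ) ≤ ⌊κ⌋₊ := by exact_mod_cast h
    have h4 : Real.log ⌊κ⌋₊ ≤ Real.log κ := Real.log_le_log (by linarith) h2
    have h5 : Real.log ⌊κ⌋₊ ≤ Real.log n := Real.log_le_log (by linarith) (h2.trans hn)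
    have h6 : (⌊κ⌋₊ : ℝ) * Real.log ⌊κ⌋₊ ≤ ⌊κ⌋₊ * Real.log κ :=
      mul_le_mul_of_nonneg_left h4 (by linarith)
    have h7 : ((⌊κ⌋₊ : ℝ) + 1) * Real.log ⌊κ⌋₊
        = ⌊κ⌋₊ * Real.log ⌊κ⌋₊ + Real.log ⌊κ⌋₊ := by ring
    linarith

theorem tl (L C : ℝ) (hL : 0 < L) (hC : 1 ≤ C) (i h : ℕ) (hi : h ≤ i) :
    C ^ (i + 1) * Real.exp (-(L * (i : ℝ) ^ 2 / 2)) * (i : ℝ) ^ 2 ≤
      Real.exp (-(L * (h : ℝ) ^ 2 / 4)) *
        (2 * C * Real.exp ((2 + Real.log C) ^ 2 / L) * (1 / 2) ^ i) := by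
  have hC0 : 0 < C := by linarith
  have h1 : (i : ℝ) ^ 2 ≤ 2 * Real.exp i := by
    have := Real.quadratic_le_exp_of_nonneg (Nat.cast_nonneg (α := ℝ) i)
    have h2 : (0 : ℝ) ≤ i := Nat.cast_nonneg i
    linarith
  have h2 : C ^ (i + 1) = C * Real.exp (i * Real.log C) := by
    rw [pow_succ, mul_comm, mul_comm (i : ℝ), Real.exp_mul, Real.exp_log hC0,
      Real.rpow_natCast]
  have h3 : Real.exp (-(i : ℝ)) ≤ (1 / 2) ^ i := by
    have h4 : Real.exp (-(i : ℝ)) = Real.exp (-1) ^ i := by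
      rw [← Real.exp_nat_mul]
      congr 1
      ring
    rw [h4]
    refine pow_le_pow_left₀ (Real.exp_pos _).le ?_ i
    rw [Real.exp_neg, one_div]
    refine inv_anti₀ (by norm_num) ?_
    have := Real.add_one_le_exp (1 : ℝ)
    linarith
  have hsq : (h : ℝ) ^ 2 ≤ (i : ℝ) ^ 2 := by
    have : (h : ℝ) ≤ i := by exact_mod_cast hi
    gcongr
  have h5 : (2 + Real.log C) * i - L * (i : ℝ) ^ 2 / 4 ≤ (2 + Real.log C) ^ 2 / L := by
    rw [le_div_iff₀ hL]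
    nlinarith [sq_nonneg ((2 + Real.log C) - L * i / 2)]
  have h6 : i * Real.log C + (-(L * (i : ℝ) ^ 2 / 2)) + i ≤
      -(L * (h : ℝ) ^ 2 / 4) + ((2 + Real.log C) ^ 2 / L) + (-(i : ℝ)) := by
    nlinarith
  calc C ^ (i + 1) * Real.exp (-(L * (i : ℝ) ^ 2 / 2)) * (i : ℝ) ^ 2
      ≤ C ^ (i + 1) * Real.exp (-(L * (i : ℝ) ^ 2 / 2)) * (2 * Real.exp i) := by gcongr
    _ = 2 * C * Real.exp (i * Real.log C + (-(L * (i : ℝ) ^ 2 / 2)) + i) := by
        rw [h2, Real.exp_add, Real.exp_add]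
        ring
    _ ≤ 2 * C * Real.exp (-(L * (h : ℝ) ^ 2 / 4) + ((2 + Real.log C) ^ 2 / L) + (-(i : ℝ))) := by
        gcongr
    _ = Real.exp (-(L * (h : ℝ) ^ 2 / 4)) *
        (2 * C * Real.exp ((2 + Real.log C) ^ 2 / L) * Real.exp (-(i : ℝ))) := by
        rw [Real.exp_add, Real.exp_add]
        ring
    _ ≤ _ := by gcongr

/-- the profile -/
noncomputable def kf (n T : ℕ) (κ : ℕ → ℝ) (u : ℕ) : ℕ :=
  if u = 1 then n - ∑ v ∈ Icc 2 T, v * ⌊κ v⌋₊ else if 2 ≤ u ∧ u ≤ T then ⌊κ u⌋₊ else 0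

theorem kspec (n T : ℕ) (κ : ℕ → ℝ) (hT : 1 ≤ T) (h0 : ∀ u, 0 ≤ κ u) (hz : κ 0 = 0)
    (hs : ∑ u ∈ range (T + 1), (u : ℝ) * κ u = n) :
    kf n T κ 0 = 0 ∧ (∀ u, T < u → kf n T κ u = 0) ∧
    ∑ u ∈ range (T + 1), u * kf n T κ u = n ∧
    (∀ u, 2 ≤ u → u ≤ T → kf n T κ u = ⌊κ u⌋₊) ∧
    (∀ u, u ≤ T → κ u - 1 ≤ kf n T κ u) ∧
    ∀ u, u ≤ T → (kf n T κ u : ℝ) ≤ κ u + if u = 1 then (T : ℝ) ^ 2 else 0 := by
  have hk2 : ∀ u, 2 ≤ u → u ≤ T → kf n T κ u = ⌊κ u⌋₊ := by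
    intro u h1 h2
    unfold kf
    rw [if_neg (by omega), if_pos ⟨h1, h2⟩]
  have hk0 : kf n T κ 0 = 0 := by
    unfold kf
    rw [if_neg (by omega), if_neg (by omega)]
  have hk1 : kf n T κ 1 = n - ∑ v ∈ Icc 2 T, v * ⌊κ v⌋₊ := by
    unfold kf
    rw [if_pos rfl]
  have hsum : κ 1 + ∑ v ∈ Icc 2 T, (v : ℝ) * κ v = n := by
    rw [spl T hT, hz] at hs
    simpa using hs
  have hle : ((∑ v ∈ Icc 2 T, v * ⌊κ v⌋₊ : ℕ) : ℝ) ≤ ∑ v ∈ Icc 2 T, (v : ℝ) * κ v := by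
    push_cast
    exact sum_le_sum fun v _ => mul_le_mul_of_nonneg_left (Nat.floor_le (h0 v)) (Nat.cast_nonneg v)
  have hge : ∑ v ∈ Icc 2 T, (v : ℝ) * κ v - ∑ v ∈ Icc 2 T, (v : ℝ) ≤
      ((∑ v ∈ Icc 2 T, v * ⌊κ v⌋₊ : ℕ) : ℝ) := by
    push_cast
    rw [← sum_sub_distrib]
    refine sum_le_sum fun v _ => ?_
    have h1 := (Nat.lt_floor_add_one (κ v)).le
    have h2 : (0 : ℝ) ≤ v := Nat.cast_nonneg v
    nlinarith
  have hT2 : ∑ v ∈ Icc 2 T, (v : ℝ) ≤ (T : ℝ) ^ 2 := by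
    calc ∑ v ∈ Icc 2 T, (v : ℝ) ≤ ∑ v ∈ Icc 2 T, (T : ℝ) := by
          refine sum_le_sum fun v hv => ?_
          rw [mem_Icc] at hv
          exact_mod_cast hv.2
      _ = ((T + 1 - 2 : ℕ) : ℝ) * T := by
          rw [sum_const, Nat.card_Icc, nsmul_eq_mul]
      _ ≤ (T : ℝ) * T := by
          have : ((T + 1 - 2 : ℕ) : ℝ) ≤ T := by exact_mod_cast (by omega : T + 1 - 2 ≤ T)
          gcongr
      _ = (T : ℝ) ^ 2 := by ring
  have hlen : ∑ v ∈ Icc 2 T, v * ⌊κ v⌋₊ ≤ n := by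
    have h1 := h0 1
    have : ((∑ v ∈ Icc 2 T, v * ⌊κ v⌋₊ : ℕ) : ℝ) ≤ n := by linarith
    exact_mod_cast this
  have hk1r : (kf n T κ 1 : ℝ) = n - ((∑ v ∈ Icc 2 T, v * ⌊κ v⌋₊ : ℕ) : ℝ) := by
    rw [hk1, Nat.cast_sub hlen]
  refine ⟨hk0, ?_, ?_, hk2, ?_, ?_⟩
  · intro u hu
    unfold kf
    rw [if_neg (by omega), if_neg (by omega)]
  · rw [spl T hT, hk0, hk1]
    have h1 : ∑ u ∈ Icc 2 T, u * kf n T κ u = ∑ v ∈ Icc 2 T, v * ⌊κ v⌋₊ := by
      refine sum_congr rfl fun u hu => ?_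
      rw [mem_Icc] at hu
      rw [hk2 u hu.1 hu.2]
    rw [h1]
    omega
  · intro u hu
    by_cases h1 : u = 1
    · rw [h1, hk1r]
      linarith
    · by_cases h2 : u = 0
      · rw [h2, hk0, hz]
        norm_num
      · rw [hk2 u (by omega) hu]
        have := Nat.lt_floor_add_one (κ u)
        linarith
  · intro u hu
    by_cases h1 : u = 1
    · rw [if_pos h1, h1, hk1r]
      linarith
    · rw [if_neg h1, add_zero]
      by_cases h2 : u = 0
      · rw [h2, hk0, hz]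
        norm_num
      · rw [hk2 u (by omega) hu]
        exact Nat.floor_le (h0 u)

/-- sums over the classes -/
theorem cls {n : ℕ} (T : ℕ) (k : ℕ → ℕ) (P : Finset (Finset (Fin n))) (hP : P ∈ Ex n k)
    (hA : ∀ A ∈ P, A.card ≤ T) (f : ℕ → ℝ) :
    ∑ A ∈ P, f A.card = ∑ u ∈ range (T + 1), (k u : ℝ) * f u := by
  classical
  unfold Ex at hP
  rw [mem_filter] at hP
  rw [← sum_fiberwise_of_maps_to (s := P) (t := range (T + 1)) (g := fun A => A.card)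
    (fun A hAP => mem_range.2 (Nat.lt_succ_of_le (hA A hAP)))]
  refine sum_congr rfl fun u _ => ?_
  have h1 : ∑ A ∈ P.filter (fun A => A.card = u), f A.card
      = ∑ A ∈ P.filter (fun A => A.card = u), f u := by
    refine sum_congr rfl fun A hA' => ?_
    rw [(mem_filter.1 hA').2]
  rw [h1, sum_const, nsmul_eq_mul]
  congr 2
  rw [← hP.2 u]

theorem exPt {n : ℕ} {k : ℕ → ℕ} {P : Finset (Finset (Fin n))} (hP : P ∈ Ex n k) :
    P ∈ Pt (Fin n) := by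
  classical
  unfold Ex at hP
  rw [mem_filter] at hP
  exact hP.1

theorem bbpos {p : ℝ} (h0 : 0 < p) (h1 : p ≤ 1 - 1 / Real.exp 2) : 0 < bb p := by
  unfold bb
  have h2 : 0 < 1 / Real.exp 2 := by positivity
  apply Real.log_pos
  rw [lt_div_iff₀ (by linarith)]
  linarith

/-- the first moment -/
theorem fmom (p : ℝ) (n T : ℕ) (κ : ℕ → ℝ) (lam mu : ℝ) (k : ℕ → ℕ) (E : ℝ)
    (hq : 0 < 1 - p) (hT : 1 ≤ T)
    (heq : ∀ u, 1 ≤ u → u ≤ T → κ u = Real.exp (lam + mu * u) * om p u)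
    (hκn : ∀ u, u ≤ T → κ u ≤ n)
    (hk0 : k 0 = 0) (hks : ∑ u ∈ range (T + 1), u * k u = n)
    (hk2 : ∀ u, 2 ≤ u → u ≤ T → k u = ⌊κ u⌋₊) (hκ1 : κ 1 ≤ 1)
    (hk1 : (k 1 : ℝ) ≤ (T : ℝ) ^ 2 + 1) (hl1 : lam ≤ 0) (hl2 : -Real.log n ^ 3 ≤ lam)
    (hmu : 0 ≤ mu) (hkk : KK T κ - (T + 1) ≤ ((∑ u ∈ range (T + 1), k u : ℕ) : ℝ))
    (hz : κ 0 = 0)
    (hE : (n.factorial : ℝ) ≤ E * ∏ u ∈ range (T + 1),
      ((u.factorial : ℝ) ^ k u * ((k u).factorial : ℝ))) :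
    Real.exp (Real.log (n.factorial : ℝ) - mu * n - lam * KK T κ + KK T κ
      - ((T + 1) * Real.log n ^ 3 + 1 + T * (2 + Real.log n) + (T ^ 2 + 1) * Real.log n ^ 3
        + (T ^ 2 + 1) ^ 2)) ≤
      E * (1 - p) ^ (∑ u ∈ range (T + 1), k u * u.choose 2) := by
  set W : ℝ := ∏ u ∈ range (T + 1), ((u.factorial : ℝ) ^ k u * ((k u).factorial : ℝ)) with hW
  have hW0 : 0 < W := prod_pos fun u _ => by positivity
  have hom : ∀ u, 0 < om p u := fun u => by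
    unfold om
    positivity
  have hlom : ∀ u, Real.log (om p u) = u.choose 2 * Real.log (1 - p) - Real.log (u.factorial : ℝ) := by
    intro u
    unfold om
    rw [Real.log_div (by positivity) (by positivity), Real.log_pow]
  have hlogκ : ∀ u, 1 ≤ u → u ≤ T → Real.log (κ u) = lam + mu * u + Real.log (om p u) := by
    intro u h1 h2
    rw [heq u h1 h2, Real.log_mul (Real.exp_pos _).ne' (hom u).ne', Real.log_exp]
  have hκpos : ∀ u, 1 ≤ u → u ≤ T → 0 < κ u := by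
    intro u h1 h2
    rw [heq u h1 h2]
    exact mul_pos (Real.exp_pos _) (hom u)
  have hln : 0 ≤ Real.log n := Real.log_natCast_nonneg n
  -- the logarithm of the right side
  have hlogW : Real.log W = ∑ u ∈ range (T + 1),
      ((k u : ℝ) * Real.log (u.factorial : ℝ) + Real.log ((k u).factorial : ℝ)) := by
    rw [hW, Real.log_prod (fun u _ => by positivity)]
    refine sum_congr rfl fun u _ => ?_
    rw [Real.log_mul (by positivity) (by positivity), Real.log_pow]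
  have hlogq : Real.log ((1 - p) ^ (∑ u ∈ range (T + 1), k u * u.choose 2))
      = ∑ u ∈ range (T + 1), (k u : ℝ) * (u.choose 2 * Real.log (1 - p)) := by
    rw [Real.log_pow]
    push_cast
    rw [sum_mul]
    refine sum_congr rfl fun u _ => ?_
    ring
  have hS : Real.log ((1 - p) ^ (∑ u ∈ range (T + 1), k u * u.choose 2)) - Real.log W
      = ∑ u ∈ range (T + 1), ((k u : ℝ) * Real.log (om p u) - Real.log ((k u).factorial : ℝ)) := by
    rw [hlogW, hlogq, ← sum_sub_distrib]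
    refine sum_congr rfl fun u _ => ?_
    rw [hlom]
    ring
  have hS2 : ∑ u ∈ range (T + 1), ((k u : ℝ) * Real.log (om p u) - Real.log ((k u).factorial : ℝ))
      = ∑ u ∈ range (T + 1), ((k u : ℝ) * Real.log (κ u) - Real.log ((k u).factorial : ℝ))
        - lam * ((∑ u ∈ range (T + 1), k u : ℕ) : ℝ) - mu * n := by
    have h1 : (n : ℝ) = ∑ u ∈ range (T + 1), (u : ℝ) * k u := by
      have := congrArg (Nat.cast (R := ℝ)) hks
      push_cast at this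
      exact this.symm
    rw [h1]
    push_cast
    rw [mul_sum, mul_sum, ← sum_sub_distrib, ← sum_sub_distrib]
    refine sum_congr rfl fun u hu => ?_
    rw [mem_range] at hu
    by_cases hu0 : u = 0
    · rw [hu0, hk0]
      simp
    · rw [hlogκ u (by omega) (by omega)]
      ring
  have hS3 : KK T κ - 1 - T * (2 + Real.log n) - (T ^ 2 + 1) * Real.log n ^ 3 - (T ^ 2 + 1) ^ 2 ≤
      ∑ u ∈ range (T + 1), ((k u : ℝ) * Real.log (κ u) - Real.log ((k u).factorial : ℝ)) := by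
    have e1 : ∑ u ∈ Icc 2 T, (κ u - 2 - Real.log n) ≤
        ∑ u ∈ Icc 2 T, ((k u : ℝ) * Real.log (κ u) - Real.log ((k u).factorial : ℝ)) := by
      refine sum_le_sum fun u hu => ?_
      rw [mem_Icc] at hu
      rw [hk2 u hu.1 hu.2]
      exact tge n (κ u) (hκpos u (by omega) hu.2).le (hκn u hu.2)
    have e2 : ∑ u ∈ Icc 2 T, (κ u - 2 - Real.log n)
        = ∑ u ∈ Icc 2 T, κ u - ((T + 1 - 2 : ℕ) : ℝ) * (2 + Real.log n) := by
      rw [sum_sub_distrib, sum_sub_distrib, sum_const, sum_const, Nat.card_Icc]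
      simp only [nsmul_eq_mul]
      ring
    have e3 : ((T + 1 - 2 : ℕ) : ℝ) * (2 + Real.log n) ≤ T * (2 + Real.log n) := by
      have : ((T + 1 - 2 : ℕ) : ℝ) ≤ T := by exact_mod_cast (by omega : T + 1 - 2 ≤ T)
      exact mul_le_mul_of_nonneg_right this (by linarith)
    have e4 : KK T κ = κ 1 + ∑ u ∈ Icc 2 T, κ u := by
      unfold KK
      rw [spl T hT, hz, zero_add]
    have e5 : -((T : ℝ) ^ 2 + 1) * Real.log n ^ 3 - ((T : ℝ) ^ 2 + 1) ^ 2 ≤
        (k 1 : ℝ) * Real.log (κ 1) - Real.log ((k 1).factorial : ℝ) := by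
      have f1 : lam ≤ Real.log (κ 1) := by
        rw [hlogκ 1 le_rfl hT, hlom]
        simp
        exact hmu
      have f2 : (0 : ℝ) ≤ k 1 := Nat.cast_nonneg _
      have f3 : -Real.log n ^ 3 ≤ Real.log (κ 1) := hl2.trans f1
      have f4 : 0 ≤ Real.log n ^ 3 := by positivity
      have f5 : -((T : ℝ) ^ 2 + 1) * Real.log n ^ 3 ≤ (k 1 : ℝ) * Real.log (κ 1) := by
        calc -((T : ℝ) ^ 2 + 1) * Real.log n ^ 3 ≤ -(k 1 : ℝ) * Real.log n ^ 3 := by nlinarith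
          _ = (k 1 : ℝ) * (-Real.log n ^ 3) := by ring
          _ ≤ _ := mul_le_mul_of_nonneg_left f3 f2
      have f6 : Real.log ((k 1).factorial : ℝ) ≤ ((T : ℝ) ^ 2 + 1) ^ 2 := by
        have g1 : Real.log ((k 1).factorial : ℝ) ≤ (k 1 : ℝ) * k 1 := by
          rcases Nat.eq_zero_or_pos (k 1) with h | h
          · rw [h]
            simp
          · have g2 : ((k 1).factorial : ℝ) ≤ (k 1 : ℝ) ^ (k 1) := by
              exact_mod_cast Nat.factorial_le_pow (k 1)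
            have g3 : Real.log ((k 1).factorial : ℝ) ≤ k 1 * Real.log (k 1) := by
              rw [← Real.log_pow]
              exact Real.log_le_log (by positivity) g2
            have g4 : Real.log (k 1 : ℝ) ≤ k 1 := by
              have := Real.log_le_sub_one_of_pos (x := (k 1 : ℝ)) (by exact_mod_cast h)
              linarith
            exact g3.trans (mul_le_mul_of_nonneg_left g4 f2)
        calc Real.log ((k 1).factorial : ℝ) ≤ (k 1 : ℝ) * k 1 := g1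
          _ ≤ ((T : ℝ) ^ 2 + 1) * ((T : ℝ) ^ 2 + 1) := by gcongr
          _ = _ := by ring
      linarith
    rw [spl T hT, hk0]
    simp only [Nat.cast_zero, zero_mul, Nat.factorial_zero, Nat.cast_one, Real.log_one, sub_zero,
      zero_add]
    rw [e4]
    linarith
  have hlam : -lam * KK T κ - (T + 1) * Real.log n ^ 3 ≤
      -(lam * ((∑ u ∈ range (T + 1), k u : ℕ) : ℝ)) := by
    have h1 : -lam * (KK T κ - (T + 1)) ≤ -lam * ((∑ u ∈ range (T + 1), k u : ℕ) : ℝ) :=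
      mul_le_mul_of_nonneg_left hkk (by linarith)
    have h2 : -lam * ((T : ℝ) + 1) ≤ Real.log n ^ 3 * (T + 1) :=
      mul_le_mul_of_nonneg_right (by linarith) (by positivity)
    nlinarith
  -- conclusion
  have hfin : Real.exp (Real.log (n.factorial : ℝ) - mu * n - lam * KK T κ + KK T κ
      - ((T + 1) * Real.log n ^ 3 + 1 + T * (2 + Real.log n) + (T ^ 2 + 1) * Real.log n ^ 3
        + (T ^ 2 + 1) ^ 2)) ≤
      (n.factorial : ℝ) * (1 - p) ^ (∑ u ∈ range (T + 1), k u * u.choose 2) / W := by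
    rw [← Real.log_le_log_iff (Real.exp_pos _) (by positivity), Real.log_exp,
      Real.log_div (by positivity) hW0.ne', Real.log_mul (by positivity) (by positivity)]
    have h1 : Real.log (n.factorial : ℝ) +
        Real.log ((1 - p) ^ (∑ u ∈ range (T + 1), k u * u.choose 2)) - Real.log W
        = Real.log (n.factorial : ℝ) +
          (Real.log ((1 - p) ^ (∑ u ∈ range (T + 1), k u * u.choose 2)) - Real.log W) := by ring
    rw [h1, hS, hS2]
    linarith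
  refine hfin.trans ?_
  rw [div_le_iff₀ hW0]
  have h2 : 0 ≤ (1 - p) ^ (∑ u ∈ range (T + 1), k u * u.choose 2) := by positivity
  calc (n.factorial : ℝ) * (1 - p) ^ (∑ u ∈ range (T + 1), k u * u.choose 2)
      ≤ (E * W) * (1 - p) ^ (∑ u ∈ range (T + 1), k u * u.choose 2) :=
        mul_le_mul_of_nonneg_right hE h2
    _ = _ := by ring

theorem ar1 (T : ℝ) (hT : 4 ≤ T) : T + 1 ≤ T ^ 2 ∧ T ^ 2 ≤ T ^ 4 ∧ T ^ 4 + T ^ 4 ≤ T ^ 8 ∧
    1 ≤ T ^ 2 ∧ 4 * T ^ 4 ≤ T ^ 8 := by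
  have h1 : 4 * T ≤ T ^ 2 := by nlinarith
  have h2 : 16 ≤ T ^ 2 := by nlinarith
  have h3 : 16 * T ^ 2 ≤ T ^ 4 := by
    have : T ^ 4 = T ^ 2 * T ^ 2 := by ring
    rw [this]
    exact mul_le_mul_of_nonneg_right h2 (by positivity)
  have h4 : 16 * T ^ 4 ≤ T ^ 8 := by
    have : T ^ 8 = T ^ 4 * T ^ 4 := by ring
    rw [this]
    exact mul_le_mul_of_nonneg_right (by linarith) (by positivity)
  have h5 : 0 ≤ T ^ 4 := by positivity
  exact ⟨by linarith, by linarith, by linarith, by linarith, by linarith⟩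

theorem ar2 (T l : ℝ) (hT : 4 ≤ T) (hl : 1 ≤ l) :
    (T + 1) * l ^ 3 + 1 + T * (2 + l) + (T ^ 2 + 1) * l ^ 3 + (T ^ 2 + 1) ^ 2 ≤
      2 * (T ^ 4 * l ^ 3) := by
  have hl3 : 1 ≤ l ^ 3 := one_le_pow₀ hl
  have hll3 : l ≤ l ^ 3 := by
    calc l = l ^ 1 := (pow_one l).symm
      _ ≤ l ^ 3 := pow_le_pow_right₀ hl (by norm_num)
  have e0 : 16 ≤ T ^ 2 := by nlinarith
  have e1 : 4 * T ≤ T ^ 2 := by nlinarith
  have e2 : 16 * T ^ 2 ≤ T ^ 4 := by
    have : T ^ 4 = T ^ 2 * T ^ 2 := by ring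
    rw [this]
    exact mul_le_mul_of_nonneg_right e0 (by positivity)
  have g3 : T * (2 + l) ≤ T * (3 * l ^ 3) :=
    mul_le_mul_of_nonneg_left (by linarith) (by linarith)
  have g4 : (T ^ 2 + 1) ^ 2 * 1 ≤ (T ^ 2 + 1) ^ 2 * l ^ 3 :=
    mul_le_mul_of_nonneg_left hl3 (by positivity)
  have g5 : (T + 1) + 1 + 3 * T + (T ^ 2 + 1) + (T ^ 2 + 1) ^ 2 ≤ 2 * T ^ 4 := by
    have : (T ^ 2 + 1) ^ 2 = T ^ 4 + 2 * T ^ 2 + 1 := by ring
    rw [this]
    linarith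
  have g6 := mul_le_mul_of_nonneg_right g5 (by linarith : (0 : ℝ) ≤ l ^ 3)
  have g7 : ((T + 1) + 1 + 3 * T + (T ^ 2 + 1) + (T ^ 2 + 1) ^ 2) * l ^ 3
      = (T + 1) * l ^ 3 + l ^ 3 + T * (3 * l ^ 3) + (T ^ 2 + 1) * l ^ 3
        + (T ^ 2 + 1) ^ 2 * l ^ 3 := by ring
  rw [g7, mul_assoc] at g6
  linarith

theorem ar3 (T l c L : ℝ) (hT : 4 ≤ T) (hL : 0 < L) (h1 : l ≤ L * T)
    (h2 : 8 * (c + L) ≤ T * L) : l + T * c + -(L * (T - 1) ^ 2 / 2) ≤ 0 := by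
  have h3 : T ^ 2 / 4 ≤ (T - 1) ^ 2 := by nlinarith
  have h4 : L * (T ^ 2 / 4) ≤ L * (T - 1) ^ 2 := mul_le_mul_of_nonneg_left h3 hL.le
  have h5 : T * (8 * (c + L)) ≤ T * (T * L) := mul_le_mul_of_nonneg_left h2 (by linarith)
  have h6 : T * (8 * (c + L)) = 8 * (T * c) + 8 * (L * T) := by ring
  have h7 : T * (T * L) = 4 * (L * (T ^ 2 / 4)) := by ring
  rw [h6, h7] at h5
  linarith

end Pool.Agent.Helper2.UX.EXA
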