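import Pool.Agent.Helper2.UX.EXA

/-!
Project UX (MP_e12aa9_pr), module EXP: the exact profile.
-/

set_option autoImplicit false

namespace Pool.Agent.Helper2.UX

open Finset Filter Pool.Agent.Helper82.CN Pool.Agent.Helper11.PV Pool.Agent.Helper69.VX
  Pool.Agent.Helper69.UX Pool.Agent.Helper2.UX.EXA

theorem hEXP (hEXC : StEXC) (hSIZ : StSIZ) : StEXP := by
  intro p ε C hp0 hp1 hε0 hε1 hC
  have hL : 0 < bb p := bbpos hp0 hp1
  have hq : 0 < 1 - p := by
    have h2 : 0 < 1 / Real.exp 2 := by positivity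
    linarith
  have hq1 : 1 - p ≤ 1 := by linarith
  set L := bb p with hLd
  set M : ℝ := 2 * C * Real.exp ((2 + Real.log C) ^ 2 / L) with hM
  have hM0 : 0 < M := by positivity
  have hlC : 0 ≤ Real.log C := Real.log_nonneg hC
  refine ⟨2 * M + 1, by linarith, ?_⟩
  intro C₀ δ J hC₀ hδ
  set J' : ℕ := max J ⌈8 * (Real.log C + L) / L⌉₊ with hJ'
  obtain ⟨n1, hn1⟩ := hSIZ p ε ε J' hp0 hp1 hε0 hε1 hε0
  refine ⟨max n1 (⌈(1 / δ) ^ 2⌉₊ + ⌈C ^ 2⌉₊ + 1), ?_⟩
  intro n T th κ lam mu hn hW hPar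
  have hnn1 : n1 ≤ n := (le_max_left _ _).trans hn
  have hnδ : ⌈(1 / δ) ^ 2⌉₊ + ⌈C ^ 2⌉₊ + 1 ≤ n := (le_max_right _ _).trans hn
  have hS := hn1 n T th hnn1 hW
  obtain ⟨hW1, hW2, hW3⟩ := hW
  -- sizes
  have hnpos : (1 : ℝ) ≤ n := by exact_mod_cast (by omega : 1 ≤ n)
  have hn0 : (0 : ℝ) < n := by linarith
  have hT4 : 4 ≤ T := by have := hS.t4.1; omega
  have hT4r : (4 : ℝ) ≤ T := by exact_mod_cast hT4
  have hTJ : 8 * (Real.log C + L) / L ≤ T := by
    have h1 : ⌈8 * (Real.log C + L) / L⌉₊ ≤ T := by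
      have := hS.t4.1
      have h2 : ⌈8 * (Real.log C + L) / L⌉₊ ≤ J' := le_max_right _ _
      omega
    exact (Nat.le_ceil _).trans (by exact_mod_cast h1)
  have hlam1 : 24 ≤ Real.log n := by
    have h1 := hS.t0
    have h2 : (24 : ℝ) ≤ 1 / ε := by
      rw [le_div_iff₀ hε0]
      linarith
    linarith
  have hT8 : (T : ℝ) ^ 8 ≤ (n : ℝ) ^ ε := hS.t3
  have hl8 : Real.log n ^ 8 ≤ (n : ℝ) ^ ε := hS.t6
  -- the profile
  have hom : ∀ u, 0 < om p u := fun u => by
    unfold om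
    positivity
  have hκ0 : ∀ u, 0 ≤ κ u := by
    intro u
    by_cases h : 1 ≤ u ∧ u ≤ T
    · rw [hPar.eq u h.1 h.2]
      exact mul_nonneg (Real.exp_pos _).le (hom u).le
    · rw [hPar.zer u (by omega)]
  have hz : κ 0 = 0 := hPar.zer 0 (Or.inl rfl)
  have hT1 : 1 ≤ T := by omega
  set K := KK T κ with hK
  have hKn : K ≤ n := by
    rw [← hPar.sum, hK]
    unfold KK
    refine sum_le_sum fun u _ => ?_
    by_cases h : u = 0
    · rw [h, hz, mul_zero]
    · have h1 : (1 : ℝ) ≤ u := by exact_mod_cast (by omega : 1 ≤ u)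
      exact le_mul_of_one_le_left (hκ0 u) h1
  have hnT : (n : ℝ) ≤ T * K := by
    rw [← hPar.sum, hK]
    unfold KK
    rw [mul_sum]
    refine sum_le_sum fun u hu => ?_
    rw [mem_range] at hu
    have h1 : (u : ℝ) ≤ T := by exact_mod_cast (by omega : u ≤ T)
    exact mul_le_mul_of_nonneg_right h1 (hκ0 u)
  have hK0 : 0 < K := by
    by_contra hcon
    push Not at hcon
    have : (T : ℝ) * K ≤ 0 := mul_nonpos_of_nonneg_of_nonpos (by linarith) hcon
    linarith
  have hκK : ∀ u, u ≤ T → κ u ≤ K := by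
    intro u hu
    rw [hK]
    unfold KK
    exact single_le_sum (f := κ) (fun v _ => hκ0 v) (mem_range.2 (by omega))
  -- the smallest class size
  have hκ1 : κ 1 ≤ 1 := by
    have h1 := hPar.tail 1 hT1
    have h2 : T - 1 + 1 = T := by omega
    rw [h2] at h1
    have h3 : ((T - 1 : ℕ) : ℝ) = T - 1 := by
      rw [Nat.cast_sub hT1, Nat.cast_one]
    rw [h3] at h1
    have h4 : K ≤ Real.exp (Real.log n) := by
      rw [Real.exp_log hn0]
      exact hKn
    have h5 : C ^ T = Real.exp (T * Real.log C) := by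
      rw [mul_comm, Real.exp_mul, Real.exp_log (by linarith), Real.rpow_natCast]
    have h6 : Real.log n ≤ L * T := by
      have h7 := (abs_le.1 hS.t1).1
      have h8 : 0 ≤ (1 - ε) * Real.log n := mul_nonneg (by linarith) (by linarith)
      have h8' : (1 - ε) * Real.log n = Real.log n - ε * Real.log n := by ring
      linarith
    have h9 : 8 * (Real.log C + L) ≤ T * L := by
      rwa [div_le_iff₀ hL] at hTJ
    have h11 := ar3 T (Real.log n) (Real.log C) L hT4r hL h6 h9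
    calc κ 1 ≤ K * C ^ T * Real.exp (-(L * ((T : ℝ) - 1) ^ 2 / 2)) := h1
      _ ≤ Real.exp (Real.log n) * Real.exp (T * Real.log C) *
          Real.exp (-(L * ((T : ℝ) - 1) ^ 2 / 2)) := by
          rw [h5]
          gcongr
      _ = Real.exp (Real.log n + T * Real.log C + -(L * ((T : ℝ) - 1) ^ 2 / 2)) := by
          rw [Real.exp_add, Real.exp_add]
      _ ≤ Real.exp 0 := Real.exp_le_exp.2 h11
      _ = 1 := Real.exp_zero
  -- the profile of integers
  obtain ⟨k0, kT, ks, k2, klow, kup⟩ := kspec n T κ hT1 hκ0 hz hPar.sum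
  set k := kf n T κ with hk
  have hlowS : K - (T + 1) ≤ ((∑ u ∈ range (T + 1), k u : ℕ) : ℝ) := by
    push_cast
    have h1 : ∑ u ∈ range (T + 1), (κ u - 1) ≤ ∑ u ∈ range (T + 1), (k u : ℝ) :=
      sum_le_sum fun u hu => klow u (by rw [mem_range] at hu; omega)
    rw [sum_sub_distrib, sum_const, card_range, nsmul_eq_mul, mul_one] at h1
    push_cast at h1
    exact h1
  have hwt : ∀ g : ℕ → ℝ, (∀ u, 0 ≤ g u) →
      ∑ u ∈ range (T + 1), (k u : ℝ) * g u ≤
        ∑ u ∈ range (T + 1), κ u * g u + (T : ℝ) ^ 2 * g 1 := by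
    intro g hg
    have h1 : ∑ u ∈ range (T + 1), (k u : ℝ) * g u ≤
        ∑ u ∈ range (T + 1), (κ u * g u + if u = 1 then (T : ℝ) ^ 2 * g 1 else 0) := by
      refine sum_le_sum fun u hu => ?_
      have h2 := kup u (by rw [mem_range] at hu; omega)
      have h3 := mul_le_mul_of_nonneg_right h2 (hg u)
      refine h3.trans (le_of_eq ?_)
      split_ifs with h4
      · rw [h4]
        ring
      · ring
    refine h1.trans (le_of_eq ?_)
    rw [sum_add_distrib, sum_ite_eq' (range (T + 1)) 1, if_pos (mem_range.2 (by omega))]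
  have hupS : ((∑ u ∈ range (T + 1), k u : ℕ) : ℝ) ≤ K + (T : ℝ) ^ 2 := by
    have h1 := hwt (fun _ => 1) (fun _ => zero_le_one)
    simp only [mul_one] at h1
    push_cast
    exact h1
  obtain ⟨hTT, hT24, hT2, hT21, hT48⟩ := ar1 T hT4r
  have hT4ε : (T : ℝ) ^ 4 ≤ (n : ℝ) ^ ε := by
    have : (0 : ℝ) ≤ (T : ℝ) ^ 4 := by positivity
    linarith
  have hεh : (n : ℝ) ^ ε ≤ (n : ℝ) ^ (1 / 2 : ℝ) :=
    Real.rpow_le_rpow_of_exponent_le hnpos (by linarith)
  have hnn : (n : ℝ) ^ (1 / 2 : ℝ) * (n : ℝ) ^ (1 / 2 : ℝ) = n := by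
    rw [← Real.rpow_add hn0]
    norm_num
  have hCn : C ≤ (n : ℝ) ^ (1 / 2 : ℝ) := by
    have h6 : C ^ 2 ≤ n := by
      refine (Nat.le_ceil _).trans ?_
      exact_mod_cast (by omega : ⌈C ^ 2⌉₊ ≤ n)
    rw [← Real.sqrt_eq_rpow]
    exact Real.le_sqrt_of_sq_le h6
  obtain ⟨hE1, hE2⟩ := hEXC n T k k0 kT ks
  refine ⟨k, k0, kT, ks, ?_, ?_, ?_⟩
  · -- goodness
    intro P hP
    obtain ⟨c1, c2, c3⟩ := hE2 P hP
    refine ⟨exPt hP, fun A hA => (c3 A hA).trans (by omega),
      ?_, ?_, ?_, ?_⟩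
    · rw [c1]
      linarith
    · rw [c1]
      linarith
    · intro j hj
      have h1 := cls T k P hP c3 (fun u => ((T - j - u : ℕ) : ℝ))
      rw [h1]
      refine (hwt _ fun u => Nat.cast_nonneg _).trans ?_
      refine add_le_add_right ?_ _
      have h2 : ((T - j - 1 : ℕ) : ℝ) ≤ T := by exact_mod_cast (by omega : T - j - 1 ≤ T)
      have h3 : (T : ℝ) ^ 2 * ((T - j - 1 : ℕ) : ℝ) ≤ (T : ℝ) ^ 2 * T := by gcongr
      refine h3.trans ?_
      -- `T^3 ≤ δ K`
      have h4 : (n : ℝ) ^ ε ≤ (n : ℝ) ^ (1 / 2 : ℝ) :=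
        Real.rpow_le_rpow_of_exponent_le hnpos (by linarith)
      have h5 : 1 / δ ≤ (n : ℝ) ^ (1 / 2 : ℝ) := by
        have h6 : (1 / δ) ^ 2 ≤ n := by
          refine (Nat.le_ceil _).trans ?_
          exact_mod_cast (by omega : ⌈(1 / δ) ^ 2⌉₊ ≤ n)
        rw [← Real.sqrt_eq_rpow]
        exact Real.le_sqrt_of_sq_le h6
      have h7 : (n : ℝ) ^ (1 / 2 : ℝ) * (n : ℝ) ^ (1 / 2 : ℝ) = n := by
        rw [← Real.rpow_add hn0]
        norm_num
      have h8 : (T : ℝ) ^ 4 * (1 / δ) ≤ n := by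
        rw [← h7]
        exact mul_le_mul (hT4ε.trans h4) h5 (by positivity) (by positivity)
      have h9 : (T : ℝ) ^ 4 ≤ δ * n := by
        rw [mul_one_div, div_le_iff₀ hδ] at h8
        linarith
      have h10 : δ * (n : ℝ) ≤ δ * (T * K) := mul_le_mul_of_nonneg_left hnT hδ.le
      have h11 : (T : ℝ) * ((T : ℝ) ^ 2 * T) ≤ T * (δ * K) := by
        calc (T : ℝ) * ((T : ℝ) ^ 2 * T) = (T : ℝ) ^ 4 := by ring
          _ ≤ δ * (T * K) := h9.trans h10
          _ = T * (δ * K) := by ring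
      exact le_of_mul_le_mul_left h11 (by linarith)
    · intro h hh
      rw [sum_filter]
      have h1 := cls T k P hP c3 (fun u => if h ≤ T - u then ((T - u : ℕ) : ℝ) ^ 2 else 0)
      rw [h1]
      refine (hwt _ fun u => by positivity).trans ?_
      have h2 : (T : ℝ) ^ 2 * (if h ≤ T - 1 then ((T - 1 : ℕ) : ℝ) ^ 2 else 0) ≤ (n : ℝ) ^ ε := by
        have h3 : (if h ≤ T - 1 then ((T - 1 : ℕ) : ℝ) ^ 2 else 0) ≤ (T : ℝ) ^ 2 := by
          have h4 : ((T - 1 : ℕ) : ℝ) ≤ T := by exact_mod_cast (by omega : T - 1 ≤ T)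
          split_ifs
          · gcongr
          · positivity
        calc (T : ℝ) ^ 2 * (if h ≤ T - 1 then ((T - 1 : ℕ) : ℝ) ^ 2 else 0)
            ≤ (T : ℝ) ^ 2 * (T : ℝ) ^ 2 := by gcongr
          _ = (T : ℝ) ^ 4 := by ring
          _ ≤ _ := hT4ε
      have h5 : ∑ u ∈ range (T + 1), κ u * (if h ≤ T - u then ((T - u : ℕ) : ℝ) ^ 2 else 0) ≤
          K * Real.exp (-(L * (h : ℝ) ^ 2 / 4)) * (2 * M) := by
        have h6 : ∀ u ∈ range (T + 1),
            κ u * (if h ≤ T - u then ((T - u : ℕ) : ℝ) ^ 2 else 0) ≤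
            K * Real.exp (-(L * (h : ℝ) ^ 2 / 4)) * M * (1 / 2) ^ (T - u) := by
          intro u hu
          rw [mem_range] at hu
          split_ifs with h7
          · have h8 := hPar.tail u (by omega)
            have h9 := tl L C hL hC (T - u) h h7
            calc κ u * ((T - u : ℕ) : ℝ) ^ 2
                ≤ (K * C ^ (T - u + 1) * Real.exp (-(L * ((T - u : ℕ) : ℝ) ^ 2 / 2))) *
                  ((T - u : ℕ) : ℝ) ^ 2 := mul_le_mul_of_nonneg_right h8 (by positivity)
              _ = K * (C ^ (T - u + 1) * Real.exp (-(L * ((T - u : ℕ) : ℝ) ^ 2 / 2)) *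
                  ((T - u : ℕ) : ℝ) ^ 2) := by ring
              _ ≤ K * (Real.exp (-(L * (h : ℝ) ^ 2 / 4)) * (M * (1 / 2) ^ (T - u))) :=
                  mul_le_mul_of_nonneg_left h9 hK0.le
              _ = _ := by ring
          · rw [mul_zero]
            positivity
        refine (sum_le_sum h6).trans ?_
        rw [← mul_sum]
        have h10 : ∑ u ∈ range (T + 1), ((1 : ℝ) / 2) ^ (T - u) ≤ 2 := by
          have h11 := sum_range_reflect (fun i => ((1 : ℝ) / 2) ^ i) (T + 1)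
          simp only [Nat.add_sub_cancel] at h11
          rw [h11]
          exact sum_geometric_two_le _
        calc K * Real.exp (-(L * (h : ℝ) ^ 2 / 4)) * M *
              ∑ u ∈ range (T + 1), ((1 : ℝ) / 2) ^ (T - u)
            ≤ K * Real.exp (-(L * (h : ℝ) ^ 2 / 4)) * M * 2 := by gcongr
          _ = _ := by ring
      have h12 : 0 ≤ K * Real.exp (-(L * (h : ℝ) ^ 2 / 4)) := by positivity
      have h13 : (0 : ℝ) ≤ (n : ℝ) ^ ε := by positivity
      calc ∑ u ∈ range (T + 1), κ u * (if h ≤ T - u then ((T - u : ℕ) : ℝ) ^ 2 else 0) +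
            (T : ℝ) ^ 2 * (if h ≤ T - 1 then ((T - 1 : ℕ) : ℝ) ^ 2 else 0)
          ≤ K * Real.exp (-(L * (h : ℝ) ^ 2 / 4)) * (2 * M) + (n : ℝ) ^ ε := add_le_add h5 h2
        _ ≤ (2 * M + 1) * ((n : ℝ) ^ ε + K * Real.exp (-(L * (h : ℝ) ^ 2 / 4))) := by
            have h14 : 0 ≤ 2 * M * (n : ℝ) ^ ε := by positivity
            have h15 : (2 * M + 1) * ((n : ℝ) ^ ε + K * Real.exp (-(L * (h : ℝ) ^ 2 / 4)))
                = 2 * M * (n : ℝ) ^ ε + (n : ℝ) ^ ε
                  + K * Real.exp (-(L * (h : ℝ) ^ 2 / 4)) * (2 * M)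
                  + K * Real.exp (-(L * (h : ℝ) ^ 2 / 4)) := by ring
            linarith
        _ ≤ _ := mul_le_mul_of_nonneg_right hC₀ (by positivity)
  · linarith
  · -- the first moment
    have hln0 : 0 ≤ Real.log n := by linarith
    have hmu : 0 ≤ mu := by
      have h1 := hPar.eq T hT1 le_rfl
      have h2 : 1 ≤ κ T := by
        have h3 := hPar.top
        have h4 : C * 1 ≤ C * κ T := by
          rw [mul_one]
          refine le_trans ?_ h3
          -- `C ≤ K`
          have h5 : (T : ℝ) * C ≤ T * K := by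
            refine le_trans ?_ hnT
            rw [← hnn]
            exact mul_le_mul ((le_trans (by linarith [pow_nonneg (by linarith : (0 : ℝ) ≤ T) 4]) hT4ε).trans hεh)
              hCn (by linarith) (by positivity)
          exact le_of_mul_le_mul_left h5 (by linarith)
        exact le_of_mul_le_mul_left h4 (by linarith)
      have h7 : om p T ≤ 1 := by
        unfold om
        rw [div_le_one (by positivity)]
        have h8 : (1 - p) ^ T.choose 2 ≤ 1 := pow_le_one₀ hq.le hq1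
        have h9 : (1 : ℝ) ≤ (T.factorial : ℝ) := by exact_mod_cast Nat.one_le_iff_ne_zero.2 (Nat.factorial_ne_zero T)
        linarith
      have h10 : 1 ≤ Real.exp (lam + mu * T) := by
        by_contra hcon
        push Not at hcon
        have h11 : Real.exp (lam + mu * T) * om p T < 1 := by
          calc Real.exp (lam + mu * T) * om p T ≤ Real.exp (lam + mu * T) * 1 := by gcongr
            _ < 1 := by linarith
        linarith
      have h12 : 0 ≤ lam + mu * T := by
        rw [← Real.exp_zero] at h10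
        exact Real.exp_le_exp.1 h10
      have h13 : 0 ≤ mu * T := by linarith [hPar.lam1]
      exact nonneg_of_mul_nonneg_left h13 (by linarith)
    have hk1 : (k 1 : ℝ) ≤ (T : ℝ) ^ 2 + 1 := by
      have h1 := kup 1 hT1
      rw [if_pos rfl] at h1
      linarith
    have hmain := fmom p n T κ lam mu k ((Ex n k).card : ℝ) hq hT1 hPar.eq
      (fun u hu => (hκK u hu).trans hKn) k0 ks k2 hκ1 hk1 (by linarith [hPar.lam1])
      (by linarith [hPar.lam2]) hmu hlowS hz hE1
    refine le_trans (Real.exp_le_exp.2 ?_) hmain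
    rw [hPar.ent]
    -- the error
    have hr : (n : ℝ) ^ (2 * ε) ≤ (n : ℝ) ^ (th + 3 * ε) :=
      Real.rpow_le_rpow_of_exponent_le hnpos (by linarith)
    have hr2 : (n : ℝ) ^ (2 * ε) = (n : ℝ) ^ ε * (n : ℝ) ^ ε := by
      rw [two_mul, Real.rpow_add hn0]
    have hl1 : 1 ≤ Real.log n := by linarith
    set l := Real.log n with hl
    have e3 := ar2 T l hT4r hl1
    have e4 : 2 * ((T : ℝ) ^ 4 * l ^ 3) ≤ (n : ℝ) ^ (th + 3 * ε) / 2 := by
      have g2 : l ^ 3 ≤ l ^ 8 := pow_le_pow_right₀ hl1 (by norm_num)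
      have g3 : 4 * (T : ℝ) ^ 4 * l ^ 3 ≤ (n : ℝ) ^ ε * (n : ℝ) ^ ε :=
        mul_le_mul (hT48.trans hT8) (g2.trans hl8) (by positivity) (by positivity)
      linarith
    linarith

end Pool.Agent.Helper2.UX
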